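import Pool.Agent.Y990.OA.Stm4

/-! # Choice of the scales for the number of spanning clusters -/

set_option autoImplicit false

namespace Pool.Agent.Y275.OA

/-- the scales -/
theorem sana_core (D A : ℕ) (hD : 1 ≤ D) (hA : 1 ≤ A) : ∃ C ε : ℝ, 0 < ε ∧
    ∀ (n : ℕ) (f : ℝ), 1 ≤ n → f ≤ ((n : ℝ) + 1) ^ (D + 1) →
    (∀ k m : ℕ, (k + 2) ^ A ≤ m → 2 * m ≤ n → f ≤ ((n / (2 * k + 1) + 2 : ℕ) : ℝ) ^ (D + 1) *
      (1 + ((2 * k + 1 : ℕ) : ℝ) ^ (D + 2) * (2 * (m : ℝ) ^ (-(1 / 50 : ℝ)))) +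
      2 * ((D + 2 : ℕ) : ℝ) * (m + k + 1) * ((n : ℝ) + 1) ^ D) →
    f ≤ C * (n : ℝ) ^ (((D + 2 : ℕ) : ℝ) - 1 - ε) := by
  obtain ⟨E, hE⟩ : ∃ E, E = A * (D + 2) := ⟨_, rfl⟩
  have hE1 : D + 2 ≤ E := by rw [hE]; exact Nat.le_mul_of_pos_left _ hA
  have hEA : A ≤ E := by rw [hE]; exact Nat.le_mul_of_pos_right _ (by omega)
  obtain ⟨B, hB⟩ : ∃ B, B = E * 50 := ⟨_, rfl⟩
  have hB1 : 1 ≤ B := by omega
  have hBA : A ≤ B := by omega
  have hNpos : (0 : ℝ) < ((2 * B : ℕ) : ℝ) := by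
    have : 0 < 2 * B := by omega
    exact_mod_cast this
  refine ⟨8 ^ (D + 1) * (1 + 2 ^ (D + 3)) + (D + 2) * 2 ^ (D + 2) + 2 ^ (D + 2),
    1 / ((2 * B : ℕ) : ℝ), by positivity, ?_⟩
  intro n f hn hf0 hf
  have hn1 : (1 : ℝ) ≤ n := by exact_mod_cast hn
  have hn0 : (0 : ℝ) < n := by linarith
  obtain ⟨y, hy⟩ : ∃ y : ℝ, y = (n : ℝ) ^ (1 / ((2 * B : ℕ) : ℝ)) := ⟨_, rfl⟩
  have hy1 : 1 ≤ y := by
    rw [hy]
    exact Real.one_le_rpow hn1 (by positivity)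
  have hy0 : 0 < y := by linarith
  have hyN : y ^ (2 * B) = n := by
    rw [hy, ← Real.rpow_natCast, ← Real.rpow_mul hn0.le, one_div_mul_cancel hNpos.ne',
      Real.rpow_one]
  have hgoal : (n : ℝ) ^ (((D + 2 : ℕ) : ℝ) - 1 - 1 / ((2 * B : ℕ) : ℝ)) =
      (n : ℝ) ^ (D + 1) / y := by
    rw [Real.rpow_sub hn0, ← hy]
    congr 1
    have : ((D + 2 : ℕ) : ℝ) - 1 = ((D + 1 : ℕ) : ℝ) := by push_cast; ring
    rw [this, Real.rpow_natCast]
  rw [hgoal]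
  obtain ⟨X, hX⟩ : ∃ X : ℝ, X = (n : ℝ) ^ (D + 1) / y := ⟨_, rfl⟩
  have hX0 : 0 ≤ X := by rw [hX]; positivity
  have hXy : X * y = (n : ℝ) ^ (D + 1) := by rw [hX, div_mul_cancel₀ _ hy0.ne']
  rw [← hX]
  have h2n : (n : ℝ) + 1 ≤ 2 * n := by linarith
  by_cases hcase : n < 2 ^ (2 * B)
  · have hy2 : y ≤ 2 := by
      by_contra h
      push Not at h
      have h1 : (2 : ℝ) ^ (2 * B) < y ^ (2 * B) := pow_lt_pow_left₀ h (by norm_num) (by omega)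
      rw [hyN] at h1
      exact absurd hcase (not_lt.mpr (by exact_mod_cast h1.le))
    have h1 : ((n : ℝ) + 1) ^ (D + 1) ≤ (2 * n) ^ (D + 1) := by gcongr
    have h2 : ((2 : ℝ) * n) ^ (D + 1) = 2 ^ (D + 1) * (X * y) := by rw [mul_pow, hXy]
    have h3 : (2 : ℝ) ^ (D + 1) * (X * y) ≤ 2 ^ (D + 1) * (X * 2) := by gcongr
    have h4 : (2 : ℝ) ^ (D + 1) * (X * 2) = 2 ^ (D + 2) * X := by ring
    have h5 : 0 ≤ ((8 : ℝ) ^ (D + 1) * (1 + 2 ^ (D + 3)) + (D + 2) * 2 ^ (D + 2)) * X := by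
      positivity
    calc f ≤ 2 ^ (D + 2) * X := by linarith
      _ ≤ _ := by
        rw [add_mul]
        linarith
  · push Not at hcase
    obtain ⟨r, hr1, hr2⟩ : ∃ r : ℕ, r ^ (2 * B) ≤ n ∧ n < (r + 1) ^ (2 * B) := by
      have hex : ∃ s : ℕ, n < (s + 1) ^ (2 * B) :=
        ⟨n, (Nat.lt_succ_self n).trans_le (Nat.le_self_pow (by omega) _)⟩
      refine ⟨Nat.find hex, ?_, Nat.find_spec hex⟩
      rcases Nat.eq_zero_or_pos (Nat.find hex) with h | h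
      · rw [h, zero_pow (by omega)]
        exact Nat.zero_le _
      · have h1 := Nat.find_min hex (m := Nat.find hex - 1) (by omega)
        rw [Nat.sub_add_cancel h] at h1
        exact not_lt.mp h1
    have hr : 2 ≤ r := by
      by_contra h
      have h1 : (r + 1) ^ (2 * B) ≤ 2 ^ (2 * B) := Nat.pow_le_pow_left (by omega) _
      omega
    have hry : (r : ℝ) ≤ y := by
      by_contra h
      push Not at h
      have h1 := pow_lt_pow_left₀ h hy0.le (n := 2 * B) (by omega)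
      rw [hyN] at h1
      exact absurd h1 (not_lt.mpr (by exact_mod_cast hr1))
    have hyr : y ≤ r + 1 := by
      by_contra h
      push Not at h
      have h1 := pow_lt_pow_left₀ h (by positivity) (n := 2 * B) (by omega)
      rw [hyN] at h1
      exact absurd h1 (not_lt.mpr (by exact_mod_cast hr2.le))
    obtain ⟨k, rfl⟩ : ∃ k, r = k + 2 := ⟨r - 2, by omega⟩
    have hk0 : (0 : ℝ) ≤ k := Nat.cast_nonneg k
    have hRc : ((k + 2 : ℕ) : ℝ) = (k : ℝ) + 2 := by push_cast; ring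
    rw [hRc] at hry hyr
    have hy2r : y ≤ 2 * ((k : ℝ) + 2) := by linarith
    have hrn : (k : ℝ) + 2 ≤ n := by
      have h1 : (k + 2) ≤ (k + 2) ^ (2 * B) := Nat.le_self_pow (by omega) _
      rw [← hRc]
      exact_mod_cast h1.trans hr1
    have hm2 : 2 ≤ (k + 2) ^ B := by
      have h1 : (k + 2) ≤ (k + 2) ^ B := Nat.le_self_pow (by omega) _
      omega
    have hmn : 2 * (k + 2) ^ B ≤ n := by
      have h1 : (k + 2) ^ (2 * B) = (k + 2) ^ B * (k + 2) ^ B := by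
        rw [two_mul, pow_add]
      rw [h1] at hr1
      exact (Nat.mul_le_mul_right _ hm2).trans hr1
    have key := hf k ((k + 2) ^ B) (Nat.pow_le_pow_right (by omega) hBA) hmn
    -- first factor
    have hT1 : ((n / (2 * k + 1) + 2 : ℕ) : ℝ) ≤ 8 * (n / y) := by
      have h1 : ((n / (2 * k + 1) : ℕ) : ℝ) ≤ (n : ℝ) / ((2 * k + 1 : ℕ) : ℝ) := Nat.cast_div_le
      have h2 : (n : ℝ) / ((2 * k + 1 : ℕ) : ℝ) ≤ 2 * (n / ((k : ℝ) + 2)) := by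
        push_cast
        rw [← mul_div_assoc, div_le_div_iff₀ (by positivity) (by positivity)]
        nlinarith
      have h3 : 1 ≤ (n : ℝ) / ((k : ℝ) + 2) := by
        rw [le_div_iff₀ (by positivity)]
        linarith
      have h4 : (n : ℝ) / ((k : ℝ) + 2) ≤ 2 * (n / y) := by
        rw [← mul_div_assoc, div_le_div_iff₀ (by positivity) hy0]
        nlinarith
      rw [Nat.cast_add, Nat.cast_ofNat]
      linarith
    have hT1p : ((n / (2 * k + 1) + 2 : ℕ) : ℝ) ^ (D + 1) ≤ 8 ^ (D + 1) * X := by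
      refine (pow_le_pow_left₀ (by positivity) hT1 _).trans ?_
      rw [mul_pow, hX, div_pow]
      have h1 : y ≤ y ^ (D + 1) := le_self_pow₀ hy1 (by omega)
      gcongr
    -- second factor
    have hT2 : ((2 * k + 1 : ℕ) : ℝ) ^ (D + 2) *
        (2 * (((k + 2) ^ B : ℕ) : ℝ) ^ (-(1 / 50 : ℝ))) ≤ 2 ^ (D + 3) := by
      have h1 : (((k + 2) ^ B : ℕ) : ℝ) ^ (-(1 / 50 : ℝ)) = (((k : ℝ) + 2) ^ E)⁻¹ := by
        have e1 : (((k + 2) ^ B : ℕ) : ℝ) = (((k : ℝ) + 2) ^ E) ^ (50 : ℕ) := by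
          rw [hB, ← pow_mul]
          push_cast
          ring
        rw [e1, Real.rpow_neg (by positivity), ← Real.rpow_natCast (((k : ℝ) + 2) ^ E) 50,
          ← Real.rpow_mul (by positivity)]
        norm_num
      have h2 : (((2 * k + 1 : ℕ) : ℝ)) ^ (D + 2) ≤ 2 ^ (D + 2) * ((k : ℝ) + 2) ^ E := by
        have e1 : ((2 * k + 1 : ℕ) : ℝ) ≤ 2 * ((k : ℝ) + 2) := by push_cast; linarith
        refine (pow_le_pow_left₀ (by positivity) e1 _).trans ?_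
        rw [mul_pow]
        have e2 : ((k : ℝ) + 2) ^ (D + 2) ≤ ((k : ℝ) + 2) ^ E :=
          pow_le_pow_right₀ (by linarith) hE1
        gcongr
      rw [h1]
      have hpE : 0 < ((k : ℝ) + 2) ^ E := by positivity
      calc ((2 * k + 1 : ℕ) : ℝ) ^ (D + 2) * (2 * (((k : ℝ) + 2) ^ E)⁻¹)
          ≤ (2 ^ (D + 2) * ((k : ℝ) + 2) ^ E) * (2 * (((k : ℝ) + 2) ^ E)⁻¹) := by gcongr
        _ = 2 ^ (D + 3) * (((k : ℝ) + 2) ^ E * (((k : ℝ) + 2) ^ E)⁻¹) := by ring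
        _ = 2 ^ (D + 3) := by rw [mul_inv_cancel₀ hpE.ne', mul_one]
    -- third term
    have hm : (((k + 2) ^ B : ℕ) : ℝ) * y ≤ n := by
      have e1 : (((k + 2) ^ B : ℕ) : ℝ) = ((k : ℝ) + 2) ^ B := by push_cast; ring
      rw [e1]
      calc ((k : ℝ) + 2) ^ B * y ≤ y ^ B * y := by gcongr
        _ = y ^ (B + 1) := by ring
        _ ≤ y ^ (2 * B) := pow_le_pow_right₀ hy1 (by omega)
        _ = n := hyN
    have hmX : (((k + 2) ^ B : ℕ) : ℝ) * (n : ℝ) ^ D ≤ X := by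
      rw [hX, le_div_iff₀ hy0]
      calc (((k + 2) ^ B : ℕ) : ℝ) * (n : ℝ) ^ D * y
          = (((k + 2) ^ B : ℕ) : ℝ) * y * (n : ℝ) ^ D := by ring
        _ ≤ n * (n : ℝ) ^ D := by gcongr
        _ = (n : ℝ) ^ (D + 1) := by ring
    have hmk : (((k + 2) ^ B : ℕ) : ℝ) + k + 1 ≤ 2 * (((k + 2) ^ B : ℕ) : ℝ) := by
      have h1 : (k + 2) ≤ (k + 2) ^ B := Nat.le_self_pow (by omega) _
      have h2 : ((k + 2 : ℕ) : ℝ) ≤ (((k + 2) ^ B : ℕ) : ℝ) := by exact_mod_cast h1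
      rw [hRc] at h2
      linarith
    have hnD : ((n : ℝ) + 1) ^ D ≤ 2 ^ D * (n : ℝ) ^ D := by
      rw [← mul_pow]
      gcongr
    have hT3 : 2 * ((D + 2 : ℕ) : ℝ) * ((((k + 2) ^ B : ℕ) : ℝ) + k + 1) * ((n : ℝ) + 1) ^ D ≤
        (D + 2) * 2 ^ (D + 2) * X := by
      calc 2 * ((D + 2 : ℕ) : ℝ) * ((((k + 2) ^ B : ℕ) : ℝ) + k + 1) * ((n : ℝ) + 1) ^ D
          ≤ 2 * ((D + 2 : ℕ) : ℝ) * (2 * (((k + 2) ^ B : ℕ) : ℝ)) * (2 ^ D * (n : ℝ) ^ D) := by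
            gcongr
        _ = (D + 2) * 2 ^ (D + 2) * ((((k + 2) ^ B : ℕ) : ℝ) * (n : ℝ) ^ D) := by
            push_cast
            ring
        _ ≤ (D + 2) * 2 ^ (D + 2) * X := by gcongr
    have hT12 : ((n / (2 * k + 1) + 2 : ℕ) : ℝ) ^ (D + 1) *
        (1 + ((2 * k + 1 : ℕ) : ℝ) ^ (D + 2) *
        (2 * (((k + 2) ^ B : ℕ) : ℝ) ^ (-(1 / 50 : ℝ)))) ≤
        8 ^ (D + 1) * X * (1 + 2 ^ (D + 3)) := by
      gcongr
    have h5 : 0 ≤ (2 : ℝ) ^ (D + 2) * X := by positivity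
    calc f ≤ 8 ^ (D + 1) * X * (1 + 2 ^ (D + 3)) + (D + 2) * 2 ^ (D + 2) * X := by linarith
      _ ≤ _ := by
        rw [add_mul, add_mul]
        linarith

/-- SANA -/
theorem sana : Pool.Agent.Y990.OA.S_sana := by
  intro d A hd hA
  obtain ⟨D, rfl⟩ : ∃ D, d = D + 2 := ⟨d - 2, by omega⟩
  exact sana_core D A (by omega) hA

end Pool.Agent.Y275.OA
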